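import Pool.Agent.Q157.PT.Defs

namespace Pool.Agent.Q157.PT

/-- two new different cells outside `S` which, together with `S`, contain `p` and `q` -/
theorem exists_two (S : Finset Cell) (p q : Cell) : ∃ r : Cell × Cell,
    r.1 ≠ r.2 ∧ r.1 ∉ S ∧ r.2 ∉ S ∧ (p ∈ S ∨ p = r.1 ∨ p = r.2) ∧ (q ∈ S ∨ q = r.1 ∨ q = r.2) := by
  have hex : ∀ F : Finset Cell, ∃ x, x ∉ F := fun F => Infinite.exists_notMem_finset F
  by_cases hp : p ∈ S
  · by_cases hq : q ∈ S
    · obtain ⟨x, hx⟩ := hex S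
      obtain ⟨y, hy⟩ := hex (insert x S)
      rw [Finset.mem_insert, not_or] at hy
      exact ⟨(x, y), fun h => hy.1 h.symm, hx, hy.2, Or.inl hp, Or.inl hq⟩
    · obtain ⟨y, hy⟩ := hex (insert q S)
      rw [Finset.mem_insert, not_or] at hy
      exact ⟨(q, y), fun h => hy.1 h.symm, hq, hy.2, Or.inl hp, Or.inr (Or.inl rfl)⟩
  · by_cases hq : q ∈ S
    · obtain ⟨y, hy⟩ := hex (insert p S)
      rw [Finset.mem_insert, not_or] at hy
      exact ⟨(p, y), fun h => hy.1 h.symm, hp, hy.2, Or.inr (Or.inl rfl), Or.inl hq⟩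
    · by_cases hpq : p = q
      · obtain ⟨y, hy⟩ := hex (insert p S)
        rw [Finset.mem_insert, not_or] at hy
        exact ⟨(p, y), fun h => hy.1 h.symm, hp, hy.2, Or.inr (Or.inl rfl),
          Or.inr (Or.inl hpq.symm)⟩
      · exact ⟨(p, q), hpq, hp, hq, Or.inr (Or.inl rfl), Or.inr (Or.inr rfl)⟩

/-- all cells marked before the answer of the breaker to the history `h` -/
def marked (σ : List (Cell × Cell) → Cell) (h : List (Cell × Cell)) : Finset Cell :=
  ((Finset.range (h.length + 1)).image fun i => σ (h.take i)) ∪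
    (h.map Prod.fst).toFinset ∪ (h.map Prod.snd).toFinset

open Classical in
noncomputable def resp (f1 f2 : Cell → Cell) (σ : List (Cell × Cell) → Cell)
    (h : List (Cell × Cell)) : Cell × Cell :=
  (exists_two (marked σ h) (f1 (σ h)) (f2 (σ h))).choose

noncomputable def bs (f1 f2 : Cell → Cell) (σ : List (Cell × Cell) → Cell) :
    ℕ → List (Cell × Cell)
  | 0 => []
  | (n + 1) => bs f1 f2 σ n ++ [resp f1 f2 σ (bs f1 f2 σ n)]

noncomputable def bb (f1 f2 : Cell → Cell) (σ : List (Cell × Cell) → Cell) (n : ℕ) :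
    Cell × Cell := resp f1 f2 σ (bs f1 f2 σ n)

theorem bs_eq (f1 f2 : Cell → Cell) (σ : List (Cell × Cell) → Cell) (n : ℕ) :
    bs f1 f2 σ n = (List.range n).map (bb f1 f2 σ) := by
  induction n with
  | zero => rfl
  | succ n ih =>
      rw [List.range_succ, List.map_append, ← ih]
      rfl

theorem take_range (b : ℕ → Cell × Cell) (n i : ℕ) (h : i ≤ n) :
    ((List.range n).map b).take i = (List.range i).map b := by
  rw [← List.map_take, List.take_range, min_eq_left h]

theorem marked_spec (σ : List (Cell × Cell) → Cell) (b : ℕ → Cell × Cell) (n : ℕ) (x : Cell) :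
    x ∈ marked σ ((List.range n).map b) ↔
      (∃ i ≤ n, x = mk σ b i) ∨ (∃ i < n, x = (b i).1) ∨ (∃ i < n, x = (b i).2) := by
  unfold marked
  simp only [Finset.mem_union, Finset.mem_image, Finset.mem_range, List.length_map,
    List.length_range, List.mem_toFinset, List.mem_map, List.mem_range]
  constructor
  · rintro ((⟨i, hi, rfl⟩ | ⟨a, ⟨i, hi, rfl⟩, rfl⟩) | ⟨a, ⟨i, hi, rfl⟩, rfl⟩)
    · left
      refine ⟨i, by omega, ?_⟩
      rw [take_range b n i (by omega)]
      rfl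
    · right; left; exact ⟨i, hi, rfl⟩
    · right; right; exact ⟨i, hi, rfl⟩
  · rintro (⟨i, hi, rfl⟩ | ⟨i, hi, rfl⟩ | ⟨i, hi, rfl⟩)
    · left; left
      refine ⟨i, by omega, ?_⟩
      rw [take_range b n i hi]
      rfl
    · left; right; exact ⟨b i, ⟨i, hi, rfl⟩, rfl⟩
    · right; exact ⟨b i, ⟨i, hi, rfl⟩, rfl⟩

/-- the breaker can keep the maker's cells free of pairs `c, f1 c` and `c, f2 c` -/
theorem breaker (f1 f2 : Cell → Cell) (hirr : ∀ c, c ≠ f1 c ∧ c ≠ f2 c)
    (hsym : ∀ c d, (d = f1 c ∨ d = f2 c) → (c = f1 d ∨ c = f2 d))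
    (σ : List (Cell × Cell) → Cell) : ∃ b : ℕ → Cell × Cell, (∀ n, BreakerLegal σ b n) ∧
      ∀ n, (∀ m ≤ n, MakerLegal σ b m) → ∀ c ∈ mset σ b n, ∀ d ∈ mset σ b n,
        ¬ (d = f1 c ∨ d = f2 c) := by
  set b := bb f1 f2 σ with hb
  have hspec : ∀ n, (b n).1 ≠ (b n).2 ∧ (b n).1 ∉ marked σ ((List.range n).map b) ∧
      (b n).2 ∉ marked σ ((List.range n).map b) ∧
      (f1 (mk σ b n) ∈ marked σ ((List.range n).map b) ∨ f1 (mk σ b n) = (b n).1 ∨
        f1 (mk σ b n) = (b n).2) ∧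
      (f2 (mk σ b n) ∈ marked σ ((List.range n).map b) ∨ f2 (mk σ b n) = (b n).1 ∨
        f2 (mk σ b n) = (b n).2) := by
    intro n
    have := (exists_two (marked σ (bs f1 f2 σ n)) (f1 (σ (bs f1 f2 σ n)))
      (f2 (σ (bs f1 f2 σ n)))).choose_spec
    rw [bs_eq] at this
    have hbn : b n = (exists_two (marked σ ((List.range n).map b))
        (f1 (σ ((List.range n).map b))) (f2 (σ ((List.range n).map b)))).choose := by
      conv_lhs => rw [hb]
      unfold bb resp
      congr 1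
      rw [bs_eq]
    rw [hbn]
    exact this
  refine ⟨b, ?_, ?_⟩
  · intro n
    obtain ⟨h1, h2, h3, -, -⟩ := hspec n
    rw [marked_spec] at h2 h3
    push Not at h2 h3
    refine ⟨h1, fun i hi => ⟨h2.1 i hi, h3.1 i hi⟩, fun i hi => ⟨h2.2.1 i hi, h2.2.2 i hi,
      h3.2.1 i hi, h3.2.2 i hi⟩⟩
  · intro n hn
    -- key: no later maker cell is a forbidden neighbour of an earlier one
    have key : ∀ i j, i < j → j ≤ n → ¬ (mk σ b j = f1 (mk σ b i) ∨ mk σ b j = f2 (mk σ b i)) := by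
      intro i j hij hj h
      have hleg := hn j hj
      obtain ⟨-, -, -, h4, h5⟩ := hspec i
      have hm : ∀ x, (x ∈ marked σ ((List.range i).map b) ∨ x = (b i).1 ∨ x = (b i).2) →
          mk σ b j ≠ x := by
        rintro x (hx | rfl | rfl)
        · rw [marked_spec] at hx
          rcases hx with ⟨l, hl, rfl⟩ | ⟨l, hl, rfl⟩ | ⟨l, hl, rfl⟩
          · exact (hleg l (by omega)).1
          · exact (hleg l (by omega)).2.1
          · exact (hleg l (by omega)).2.2
        · exact (hleg i hij).2.1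
        · exact (hleg i hij).2.2
      rcases h with h | h
      · exact hm _ h4 h
      · exact hm _ h5 h
    intro c hc d hd h
    unfold mset at hc hd
    rw [Finset.mem_image] at hc hd
    obtain ⟨i, hi, rfl⟩ := hc
    obtain ⟨j, hj, rfl⟩ := hd
    rw [Finset.mem_range] at hi hj
    rcases lt_trichotomy i j with h' | h' | h'
    · exact key i j h' (by omega) h
    · subst h'
      rcases h with h | h
      · exact (hirr _).1 h
      · exact (hirr _).2 h
    · exact key j i h' (by omega) (hsym _ _ h)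

/-- a winning team contains a polyomino with a copy free of forbidden pairs -/
theorem winner_free {T : Set Polyomino} (hT : IsWinner T) (f1 f2 : Cell → Cell)
    (hirr : ∀ c, c ≠ f1 c ∧ c ≠ f2 c)
    (hsym : ∀ c d, (d = f1 c ∨ d = f2 c) → (c = f1 d ∨ c = f2 d)) :
    ∃ P : Poly, (⟦P⟧ : Polyomino) ∈ T ∧ ∃ f, IsSym f ∧
      ∀ c ∈ P.1.image f, ∀ d ∈ P.1.image f, ¬ (d = f1 c ∨ d = f2 c) := by
  obtain ⟨σ, hσ⟩ := hT
  obtain ⟨b, hb, hfree⟩ := breaker f1 f2 hirr hsym σ
  obtain ⟨n, hn, P, hP, f, hf, hsub⟩ := hσ b hb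
  exact ⟨P, hP, f, hf, fun c hc d hd => hfree n hn c (hsub hc) d (hsub hd)⟩

end Pool.Agent.Q157.PT
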