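import Mathlib

namespace Pool.Agent.Q157.PT

/-- a cell of the board, given by its lower left corner -/
abbrev Cell := ℤ × ℤ

/-- two cells share an edge -/
def Adj (c d : Cell) : Prop :=
  (c.1 = d.1 ∧ (c.2 = d.2 + 1 ∨ d.2 = c.2 + 1)) ∨
  (c.2 = d.2 ∧ (c.1 = d.1 + 1 ∨ d.1 = c.1 + 1))

/-- finite polyominoes: nonempty finite sets of cells, connected through adjacent cells -/
def IsPoly (P : Finset Cell) : Prop :=
  P.Nonempty ∧ ∀ c ∈ P, ∀ d ∈ P,
    Relation.ReflTransGen (fun a b => a ∈ P ∧ b ∈ P ∧ Adj a b) c d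

/-- the symmetries of the board: translations, rotations, reflections and their products -/
def IsSym (f : Cell → Cell) : Prop :=
  ∃ s t u v : ℤ, (s = 1 ∨ s = -1) ∧ (t = 1 ∨ t = -1) ∧
    ((∀ c : Cell, f c = (s * c.1 + u, t * c.2 + v)) ∨
     (∀ c : Cell, f c = (s * c.2 + u, t * c.1 + v)))

/-- `P` is an ancestor of `Q`: a congruent copy of `P` is contained in `Q` -/
def Anc (P Q : Finset Cell) : Prop := ∃ f, IsSym f ∧ P.image f ⊆ Q

theorem IsSym.id : IsSym (fun c => c) :=
  ⟨1, 1, 0, 0, Or.inl rfl, Or.inl rfl, Or.inl fun c => by simp⟩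

theorem IsSym.comp {f g : Cell → Cell} (hf : IsSym f) (hg : IsSym g) :
    IsSym (fun c => f (g c)) := by
  obtain ⟨s, t, u, v, hs, ht, h⟩ := hf
  obtain ⟨s', t', u', v', hs', ht', h'⟩ := hg
  have hmul : ∀ a b : ℤ, (a = 1 ∨ a = -1) → (b = 1 ∨ b = -1) → (a * b = 1 ∨ a * b = -1) := by
    rintro a b (rfl | rfl) (rfl | rfl) <;> simp
  rcases h with h | h <;> rcases h' with h' | h'
  · refine ⟨s * s', t * t', s * u' + u, t * v' + v, hmul _ _ hs hs', hmul _ _ ht ht',
      Or.inl fun c => ?_⟩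
    beta_reduce; rw [h', h]; ext <;> simp <;> ring
  · refine ⟨s * s', t * t', s * u' + u, t * v' + v, hmul _ _ hs hs', hmul _ _ ht ht',
      Or.inr fun c => ?_⟩
    beta_reduce; rw [h', h]; ext <;> simp <;> ring
  · refine ⟨s * t', t * s', s * v' + u, t * u' + v, hmul _ _ hs ht', hmul _ _ ht hs',
      Or.inr fun c => ?_⟩
    beta_reduce; rw [h', h]; ext <;> simp <;> ring
  · refine ⟨s * t', t * s', s * v' + u, t * u' + v, hmul _ _ hs ht', hmul _ _ ht hs',
      Or.inl fun c => ?_⟩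
    beta_reduce; rw [h', h]; ext <;> simp <;> ring

theorem IsSym.inv {f : Cell → Cell} (hf : IsSym f) :
    ∃ g, IsSym g ∧ (∀ c, g (f c) = c) ∧ (∀ c, f (g c) = c) := by
  obtain ⟨s, t, u, v, hs, ht, h⟩ := hf
  have hss : s * s = 1 := by rcases hs with rfl | rfl <;> norm_num
  have htt : t * t = 1 := by rcases ht with rfl | rfl <;> norm_num
  rcases h with h | h
  · refine ⟨fun c => (s * c.1 + -(s * u), t * c.2 + -(t * v)),
      ⟨s, t, _, _, hs, ht, Or.inl fun c => rfl⟩, fun c => ?_, fun c => ?_⟩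
    · rw [h]; ext
      · show s * (s * c.1 + u) + -(s * u) = c.1
        linear_combination c.1 * hss
      · show t * (t * c.2 + v) + -(t * v) = c.2
        linear_combination c.2 * htt
    · rw [h]; ext
      · show s * (s * c.1 + -(s * u)) + u = c.1
        linear_combination (c.1 - u) * hss
      · show t * (t * c.2 + -(t * v)) + v = c.2
        linear_combination (c.2 - v) * htt
  · refine ⟨fun c => (t * c.2 + -(t * v), s * c.1 + -(s * u)),
      ⟨t, s, _, _, ht, hs, Or.inr fun c => rfl⟩, fun c => ?_, fun c => ?_⟩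
    · rw [h]; ext
      · show t * (t * c.1 + v) + -(t * v) = c.1
        linear_combination c.1 * htt
      · show s * (s * c.2 + u) + -(s * u) = c.2
        linear_combination c.2 * hss
    · rw [h]; ext
      · show s * (s * c.1 + -(s * u)) + u = c.1
        linear_combination (c.1 - u) * hss
      · show t * (t * c.2 + -(t * v)) + v = c.2
        linear_combination (c.2 - v) * htt

theorem IsSym.inj {f : Cell → Cell} (hf : IsSym f) : Function.Injective f := by
  obtain ⟨g, -, h, -⟩ := hf.inv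
  exact Function.LeftInverse.injective h

theorem IsSym.adj {f : Cell → Cell} (hf : IsSym f) {c d : Cell} (h : Adj c d) :
    Adj (f c) (f d) := by
  obtain ⟨s, t, u, v, hs, ht, hh⟩ := hf
  unfold Adj at *
  rcases hh with hh | hh <;> rw [hh c, hh d] <;> simp only <;>
    rcases hs with rfl | rfl <;> rcases ht with rfl | rfl <;> omega

theorem Anc.refl (P : Finset Cell) : Anc P P := ⟨_, IsSym.id, by simp⟩

theorem Anc.trans {P Q R : Finset Cell} (h : Anc P Q) (h' : Anc Q R) : Anc P R := by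
  obtain ⟨f, hf, h⟩ := h
  obtain ⟨g, hg, h'⟩ := h'
  refine ⟨fun c => g (f c), hg.comp hf, ?_⟩
  intro x hx
  rw [Finset.mem_image] at hx
  obtain ⟨c, hc, rfl⟩ := hx
  exact h' (Finset.mem_image_of_mem g (h (Finset.mem_image_of_mem f hc)))

theorem Anc.card {P Q : Finset Cell} (h : Anc P Q) : P.card ≤ Q.card := by
  obtain ⟨f, hf, h⟩ := h
  rw [← Finset.card_image_of_injective P hf.inj]
  exact Finset.card_le_card h

theorem Anc.mono {P Q R : Finset Cell} (h : Anc P Q) (h' : Q ⊆ R) : Anc P R := by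
  obtain ⟨f, hf, h⟩ := h
  exact ⟨f, hf, h.trans h'⟩

/-- if `f` maps `Q` onto a superset of `R`, then `R` is an ancestor of `Q` -/
theorem Anc.of_image {Q R : Finset Cell} {f : Cell → Cell} (hf : IsSym f)
    (h : R ⊆ Q.image f) : Anc R Q := by
  obtain ⟨g, hg, h1, h2⟩ := hf.inv
  refine ⟨g, hg, ?_⟩
  intro x hx
  rw [Finset.mem_image] at hx
  obtain ⟨c, hc, rfl⟩ := hx
  have := h hc
  rw [Finset.mem_image] at this
  obtain ⟨d, hd, rfl⟩ := this
  rw [h1]
  exact hd

/-- congruence of finite sets of cells -/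
def Cong (P Q : Finset Cell) : Prop := ∃ f, IsSym f ∧ P.image f = Q

theorem Cong.refl (P : Finset Cell) : Cong P P := ⟨_, IsSym.id, by simp⟩

theorem Cong.symm {P Q : Finset Cell} (h : Cong P Q) : Cong Q P := by
  obtain ⟨f, hf, rfl⟩ := h
  obtain ⟨g, hg, h1, h2⟩ := hf.inv
  refine ⟨g, hg, ?_⟩
  rw [Finset.image_image]
  have : g ∘ f = id := funext h1
  rw [this, Finset.image_id]

theorem Cong.trans {P Q R : Finset Cell} (h : Cong P Q) (h' : Cong Q R) : Cong P R := by
  obtain ⟨f, hf, rfl⟩ := h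
  obtain ⟨g, hg, rfl⟩ := h'
  exact ⟨fun c => g (f c), hg.comp hf, by rw [Finset.image_image]; rfl⟩

theorem Cong.anc {P Q : Finset Cell} (h : Cong P Q) : Anc P Q := by
  obtain ⟨f, hf, rfl⟩ := h
  exact ⟨f, hf, subset_rfl⟩

theorem Cong.card {P Q : Finset Cell} (h : Cong P Q) : P.card = Q.card := by
  obtain ⟨f, hf, rfl⟩ := h
  rw [Finset.card_image_of_injective P hf.inj]

theorem IsPoly.image {P : Finset Cell} (hP : IsPoly P) {f : Cell → Cell} (hf : IsSym f) :
    IsPoly (P.image f) := by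
  refine ⟨hP.1.image f, ?_⟩
  intro c hc d hd
  rw [Finset.mem_image] at hc hd
  obtain ⟨c, hc, rfl⟩ := hc
  obtain ⟨d, hd, rfl⟩ := hd
  have := hP.2 c hc d hd
  refine this.lift f ?_
  rintro a b ⟨ha, hb, hab⟩
  exact ⟨Finset.mem_image_of_mem f ha, Finset.mem_image_of_mem f hb, hf.adj hab⟩

/-! ### the game -/

/-- the cell marked by the maker in round `n`, when he follows `σ` (a function of the breaker
moves of the earlier rounds) against the breaker moves `b` -/
def mk (σ : List (Cell × Cell) → Cell) (b : ℕ → Cell × Cell) (n : ℕ) : Cell :=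
  σ ((List.range n).map b)

/-- in round `n` the maker marks a cell not marked before -/
def MakerLegal (σ : List (Cell × Cell) → Cell) (b : ℕ → Cell × Cell) (n : ℕ) : Prop :=
  ∀ i < n, mk σ b n ≠ mk σ b i ∧ mk σ b n ≠ (b i).1 ∧ mk σ b n ≠ (b i).2

/-- in round `n` the breaker marks two different cells not marked before -/
def BreakerLegal (σ : List (Cell × Cell) → Cell) (b : ℕ → Cell × Cell) (n : ℕ) : Prop :=
  (b n).1 ≠ (b n).2 ∧
  (∀ i ≤ n, (b n).1 ≠ mk σ b i ∧ (b n).2 ≠ mk σ b i) ∧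
  (∀ i < n, (b n).1 ≠ (b i).1 ∧ (b n).1 ≠ (b i).2 ∧ (b n).2 ≠ (b i).1 ∧ (b n).2 ≠ (b i).2)

/-- the cells marked by the maker in the rounds `0, ..., n` -/
def mset (σ : List (Cell × Cell) → Cell) (b : ℕ → Cell × Cell) (n : ℕ) : Finset Cell :=
  (Finset.range (n + 1)).image (mk σ b)

/-- finite polyominoes as sets of cells -/
abbrev Poly := {P : Finset Cell // IsPoly P}

instance congSetoid : Setoid Poly where
  r P Q := Cong P.1 Q.1
  iseqv := ⟨fun P => Cong.refl P.1, fun h => Cong.symm h, fun h h' => Cong.trans h h'⟩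

/-- finite polyominoes up to congruence -/
abbrev Polyomino := Quotient congSetoid

/-- a team: no element is an ancestor of a different element -/
def IsTeam (T : Set Polyomino) : Prop :=
  ∀ P Q : Poly, (⟦P⟧ : Polyomino) ∈ T → (⟦Q⟧ : Polyomino) ∈ T → Anc P.1 Q.1 →
    (⟦P⟧ : Polyomino) = ⟦Q⟧

/-- the maker has a winning strategy in the weak set `(1,2)`-achievement game for `T` -/
def IsWinner (T : Set Polyomino) : Prop :=
  ∃ σ : List (Cell × Cell) → Cell, ∀ b : ℕ → Cell × Cell, (∀ n, BreakerLegal σ b n) →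
    ∃ n, (∀ m ≤ n, MakerLegal σ b m) ∧
      ∃ P : Poly, (⟦P⟧ : Polyomino) ∈ T ∧ ∃ f, IsSym f ∧ P.1.image f ⊆ mset σ b n

end Pool.Agent.Q157.PT
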