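import Pool.Agent.Q157.PT.Breaker

namespace Pool.Agent.Q157.PT

/-- a row of `k` cells with one more cell below each of its two ends -/
def U (k : ℕ) : Finset Cell :=
  ((Finset.range k).image fun i : ℕ => ((i : ℤ), (1 : ℤ))) ∪ {((0 : ℤ), (0 : ℤ)), ((k : ℤ) - 1, 0)}

theorem mod_step (K x : ℤ) (hK : 2 ≤ K) :
    (x % K = K - 1 → (x + 1) % K = 0 ∧ (x + 1) / K = x / K + 1) ∧
    (x % K ≠ K - 1 → (x + 1) % K = x % K + 1 ∧ (x + 1) / K = x / K) := by
  have h0 : 0 ≤ x % K := Int.emod_nonneg x (by omega)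
  have h1 : x % K < K := Int.emod_lt_of_pos x (by omega)
  have h2 : K * (x / K) + x % K = x := Int.mul_ediv_add_emod x K
  constructor
  · intro h
    have h3 : x + 1 = K * (x / K + 1) := by
      have : K * (x / K + 1) = K * (x / K) + K := by ring
      omega
    rw [h3]
    constructor
    · exact Int.mul_emod_right K _
    · exact Int.mul_ediv_cancel_left _ (by omega)
  · intro h
    have h3 : x + 1 = (x % K + 1) + K * (x / K) := by omega
    constructor
    · conv_lhs => rw [h3, Int.add_mul_emod_self_left]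
      exact Int.emod_eq_of_lt (by omega) (by omega)
    · conv_lhs => rw [h3, Int.add_mul_ediv_left _ _ (by omega : K ≠ 0)]
      rw [Int.ediv_eq_zero_of_lt (by omega) (by omega)]
      omega

/-- forbidden vertical neighbour -/
def f1 (c : Cell) : Cell := (c.1, if c.2 % 2 = 0 then c.2 - 1 else c.2 + 1)

/-- second forbidden neighbour -/
def f2 (K : ℤ) (c : Cell) : Cell :=
  if c.1 % K = 0 then (c.1 - 1, c.2) else if c.1 % K = K - 1 then (c.1 + 1, c.2)
  else (c.1, if c.2 % 2 = 0 then c.2 + 1 else c.2 - 1)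

theorem f1_f1 (c : Cell) : f1 (f1 c) = c := by
  unfold f1
  by_cases h : c.2 % 2 = 0
  · have h' : ¬ (c.2 - 1) % 2 = 0 := by omega
    simp only [h, if_true, h', if_false]
    ext <;> simp
  · have h' : (c.2 + 1) % 2 = 0 := by omega
    simp only [h, if_false, h', if_true]
    ext <;> simp

theorem mod_pred (K x : ℤ) (hK : 2 ≤ K) (h : x % K = 0) : (x - 1) % K = K - 1 := by
  by_contra hne
  have := ((mod_step K (x - 1) hK).2 hne).1
  rw [sub_add_cancel, h] at this
  have := Int.emod_nonneg (x - 1) (by omega : K ≠ 0)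
  omega

theorem f2_f2 (K : ℤ) (hK : 3 ≤ K) (c : Cell) : f2 K (f2 K c) = c := by
  unfold f2
  by_cases h : c.1 % K = 0
  · have h1 := mod_pred K c.1 (by omega) h
    have h0 : ¬ (K - 1 = 0) := by omega
    simp only [h, if_true, if_false, h1, h0]
    ext <;> simp
  · by_cases h' : c.1 % K = K - 1
    · have h1 := ((mod_step K c.1 (by omega)).1 h').1
      have h0 : ¬ (K - 1 = 0) := by omega
      simp only [h', if_true, h1, h0, if_false]
      ext <;> simp
    · by_cases h3 : c.2 % 2 = 0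
      · have h4 : ¬ (c.2 + 1) % 2 = 0 := by omega
        simp only [h, if_false, h', h3, if_true, h4]
        ext <;> simp
      · have h4 : (c.2 - 1) % 2 = 0 := by omega
        simp only [h, if_false, h', h3, if_true, h4]
        ext <;> simp

/-- the shape of a connected set free of forbidden pairs, for the blocks of size `K × 2` -/
theorem block_shape (k : ℕ) (hk : 3 ≤ k) (S : Finset Cell) (hS : IsPoly S)
    (hfree : ∀ c ∈ S, ∀ d ∈ S, ¬ (d = f1 c ∨ d = f2 k c)) : Anc S (U k) := by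
  obtain ⟨⟨c0, hc0⟩, hconn⟩ := hS
  have hK : (3 : ℤ) ≤ k := by exact_mod_cast hk
  -- analysis of adjacent cells
  have hadj : ∀ c ∈ S, ∀ d ∈ S, Adj c d →
      c.1 / (k : ℤ) = d.1 / (k : ℤ) ∧ c.2 / 2 = d.2 / 2 ∧
      ((c.1 = d.1 ∧ (c.1 % (k : ℤ) = 0 ∨ c.1 % (k : ℤ) = k - 1)) ∨
       (c.2 = d.2 ∧ (d.1 % (k : ℤ) = c.1 % (k : ℤ) + 1 ∨ c.1 % (k : ℤ) = d.1 % (k : ℤ) + 1))) := by
    have hv : ∀ c ∈ S, ∀ d ∈ S, c.1 = d.1 → d.2 = c.2 + 1 →
        c.1 / (k : ℤ) = d.1 / (k : ℤ) ∧ c.2 / 2 = d.2 / 2 ∧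
        (c.1 = d.1 ∧ (c.1 % (k : ℤ) = 0 ∨ c.1 % (k : ℤ) = k - 1)) := by
      intro c hc d hd h1 h2
      have hn := hfree c hc d hd
      rw [not_or] at hn
      have hpar : c.2 % 2 = 0 := by
        by_contra hp
        apply hn.1
        unfold f1
        rw [if_neg hp]
        exact Prod.ext h1.symm h2
      refine ⟨by rw [h1], by omega, h1, ?_⟩
      by_contra hx
      rw [not_or] at hx
      apply hn.2
      unfold f2
      rw [if_neg hx.1, if_neg hx.2, if_pos hpar]
      exact Prod.ext h1.symm h2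
    have hh : ∀ c ∈ S, ∀ d ∈ S, c.2 = d.2 → d.1 = c.1 + 1 →
        c.1 / (k : ℤ) = d.1 / (k : ℤ) ∧ c.2 / 2 = d.2 / 2 ∧
        (c.2 = d.2 ∧ d.1 % (k : ℤ) = c.1 % (k : ℤ) + 1) := by
      intro c hc d hd h1 h2
      have hn := hfree c hc d hd
      rw [not_or] at hn
      have hne : c.1 % (k : ℤ) ≠ k - 1 := by
        intro hx
        apply hn.2
        unfold f2
        have : ¬ c.1 % (k : ℤ) = 0 := by omega
        rw [if_neg this, if_pos hx]
        exact Prod.ext h2 h1.symm
      obtain ⟨h3, h4⟩ := (mod_step k c.1 (by omega)).2 hne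
      rw [← h2] at h3 h4
      exact ⟨h4.symm, by rw [h1], h1, h3⟩
    intro c hc d hd h
    rcases h with ⟨h1, h2 | h2⟩ | ⟨h1, h2 | h2⟩
    · obtain ⟨a1, a2, a3, a4⟩ := hv d hd c hc h1.symm h2
      exact ⟨a1.symm, a2.symm, Or.inl ⟨h1, by rw [h1]; exact a4⟩⟩
    · obtain ⟨a1, a2, a3, a4⟩ := hv c hc d hd h1 h2
      exact ⟨a1, a2, Or.inl ⟨h1, a4⟩⟩
    · obtain ⟨a1, a2, a3, a4⟩ := hh d hd c hc h1.symm h2
      exact ⟨a1.symm, a2.symm, Or.inr ⟨h1, Or.inr a4⟩⟩
    · obtain ⟨a1, a2, a3, a4⟩ := hh c hc d hd h1 h2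
      exact ⟨a1, a2, Or.inr ⟨h1, Or.inl a4⟩⟩
  -- all cells are in one block
  have hblock : ∀ c ∈ S, c.1 / (k : ℤ) = c0.1 / (k : ℤ) ∧ c.2 / 2 = c0.2 / 2 := by
    intro c hc
    have := hconn c0 hc0 c hc
    induction this with
    | refl => exact ⟨rfl, rfl⟩
    | tail _ h ih =>
        obtain ⟨ha, hb, hab⟩ := h
        obtain ⟨h1, h2, -⟩ := hadj _ ha _ hb hab
        obtain ⟨i1, i2⟩ := ih ha
        exact ⟨h1 ▸ i1, h2 ▸ i2⟩
  set X : ℤ := k * (c0.1 / (k : ℤ)) with hX
  set Y : ℤ := 2 * (c0.2 / 2) with hY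
  have hco : ∀ c ∈ S, c.1 = X + c.1 % (k : ℤ) ∧ c.2 = Y + c.2 % 2 ∧ 0 ≤ c.1 % (k : ℤ) ∧
      c.1 % (k : ℤ) < k := by
    intro c hc
    obtain ⟨h1, h2⟩ := hblock c hc
    have h3 : (k : ℤ) * (c.1 / (k : ℤ)) + c.1 % (k : ℤ) = c.1 := Int.mul_ediv_add_emod _ _
    rw [h1] at h3
    exact ⟨by rw [hX]; exact h3.symm, by omega, Int.emod_nonneg _ (by omega),
      Int.emod_lt_of_pos _ (by omega)⟩
  by_cases htop : ∃ c ∈ S, c.2 % 2 = 1 ∧ 0 < c.1 % (k : ℤ) ∧ c.1 % (k : ℤ) < k - 1
  · -- no middle cell in the bottom row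
    obtain ⟨t, ht, ht1, ht2, ht3⟩ := htop
    have hPhi : ∀ c ∈ S, (c.2 % 2 = 1 ∧ 0 < c.1 % (k : ℤ) ∧ c.1 % (k : ℤ) < k - 1) ∨
        (c.1 % (k : ℤ) = 0 ∧ ∃ d ∈ S, d.1 = X + 1 ∧ d.2 = Y + 1) ∨
        (c.1 % (k : ℤ) = k - 1 ∧ ∃ d ∈ S, d.1 = X + (k - 2) ∧ d.2 = Y + 1) := by
      intro c hc
      have := hconn t ht c hc
      induction this with
      | refl => exact Or.inl ⟨ht1, ht2, ht3⟩
      | @tail p q _ h ih =>
          obtain ⟨hp, hq, hpq⟩ := h
          obtain ⟨-, -, hcase⟩ := hadj p hp q hq hpq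
          obtain ⟨p1, p2, p3, p4⟩ := hco p hp
          obtain ⟨q1, q2, q3, q4⟩ := hco q hq
          have hforb : ∀ a ∈ S, ∀ b ∈ S, a.1 = b.1 → a.2 = Y → b.2 = Y + 1 →
              0 < a.1 % (k : ℤ) → a.1 % (k : ℤ) < k - 1 → False := by
            intro a ha b hb e1 e2 e3 e4 e5
            apply hfree a ha b hb
            right
            unfold f2
            rw [if_neg (by omega), if_neg (by omega), if_pos (by omega)]
            exact Prod.ext e1.symm (by simp; omega)
          rcases ih hp with ⟨i1, i2, i3⟩ | ⟨i1, d, hd, i2, i3⟩ | ⟨i1, d, hd, i2, i3⟩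
          · rcases hcase with ⟨e1, e2⟩ | ⟨e1, e2⟩
            · rw [e1] at e2 i2 i3; omega
            · rcases e2 with e2 | e2
              · by_cases hlast : q.1 % (k : ℤ) = k - 1
                · exact Or.inr (Or.inr ⟨hlast, p, hp, by omega, by omega⟩)
                · exact Or.inl ⟨by omega, by omega, by omega⟩
              · by_cases hfirst : q.1 % (k : ℤ) = 0
                · exact Or.inr (Or.inl ⟨hfirst, p, hp, by omega, by omega⟩)
                · exact Or.inl ⟨by omega, by omega, by omega⟩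
          · rcases hcase with ⟨e1, e2⟩ | ⟨e1, e2⟩
            · exact Or.inr (Or.inl ⟨by rw [← e1]; exact i1, d, hd, i2, i3⟩)
            · have hq1 : q.1 % (k : ℤ) = 1 := by omega
              by_cases hpar : q.2 % 2 = 1
              · exact Or.inl ⟨hpar, by omega, by omega⟩
              · exact (hforb q hq d hd (by omega) (by omega) i3 (by omega) (by omega)).elim
          · rcases hcase with ⟨e1, e2⟩ | ⟨e1, e2⟩
            · exact Or.inr (Or.inr ⟨by rw [← e1]; exact i1, d, hd, i2, i3⟩)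
            · have hq1 : q.1 % (k : ℤ) = k - 2 := by omega
              by_cases hpar : q.2 % 2 = 1
              · exact Or.inl ⟨hpar, by omega, by omega⟩
              · exact (hforb q hq d hd (by omega) (by omega) i3 (by omega) (by omega)).elim
    refine Anc.of_image (f := fun c => (1 * c.1 + X, 1 * c.2 + Y))
      ⟨1, 1, X, Y, Or.inl rfl, Or.inl rfl, Or.inl fun c => rfl⟩ ?_
    intro c hc
    obtain ⟨c1, c2, c3, c4⟩ := hco c hc
    rw [Finset.mem_image]
    have hmem : c.2 % 2 = 1 ∨ c.1 % (k : ℤ) = 0 ∨ c.1 % (k : ℤ) = k - 1 := by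
      rcases hPhi c hc with h | h | h
      · exact Or.inl h.1
      · exact Or.inr (Or.inl h.1)
      · exact Or.inr (Or.inr h.1)
    by_cases hpar : c.2 % 2 = 1
    · refine ⟨(c.1 % (k : ℤ), 1), ?_, Prod.ext (by simp; omega) (by simp; omega)⟩
      unfold U
      rw [Finset.mem_union, Finset.mem_image]
      left
      refine ⟨(c.1 % (k : ℤ)).toNat, ?_, ?_⟩
      · rw [Finset.mem_range]; omega
      · ext <;> simp; omega
    · refine ⟨(c.1 % (k : ℤ), 0), ?_, Prod.ext (by simp; omega) (by simp; omega)⟩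
      unfold U
      rw [Finset.mem_union]
      right
      rw [Finset.mem_insert, Finset.mem_singleton]
      rcases hmem with h | h | h
      · exact absurd h hpar
      · left; rw [h]
      · right; rw [h]
  · push Not at htop
    refine Anc.of_image (f := fun c => (1 * c.1 + X, -1 * c.2 + (Y + 1)))
      ⟨1, -1, X, Y + 1, Or.inl rfl, Or.inr rfl, Or.inl fun c => rfl⟩ ?_
    intro c hc
    obtain ⟨c1, c2, c3, c4⟩ := hco c hc
    have hh := htop c hc
    rw [Finset.mem_image]
    by_cases hpar : c.2 % 2 = 0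
    · refine ⟨(c.1 % (k : ℤ), 1), ?_, Prod.ext (by simp; omega) (by simp; omega)⟩
      unfold U
      rw [Finset.mem_union, Finset.mem_image]
      left
      refine ⟨(c.1 % (k : ℤ)).toNat, ?_, ?_⟩
      · rw [Finset.mem_range]; omega
      · ext <;> simp; omega
    · refine ⟨(c.1 % (k : ℤ), 0), ?_, Prod.ext (by simp; omega) (by simp; omega)⟩
      unfold U
      rw [Finset.mem_union]
      right
      rw [Finset.mem_insert, Finset.mem_singleton]
      by_cases h0 : c.1 % (k : ℤ) = 0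
      · left; rw [h0]
      · right
        have := hh (by omega) (by omega)
        have h1 : c.1 % (k : ℤ) = k - 1 := by omega
        rw [h1]

theorem winner_U {T : Set Polyomino} (hT : IsWinner T) (k : ℕ) (hk : 3 ≤ k) :
    ∃ P : Poly, (⟦P⟧ : Polyomino) ∈ T ∧ Anc P.1 (U k) := by
  have hK : (3 : ℤ) ≤ k := by exact_mod_cast hk
  obtain ⟨P, hP, f, hf, hfree⟩ := winner_free hT f1 (f2 k)
    (by
      intro c
      constructor
      · intro h
        have h2 := congrArg Prod.snd h
        unfold f1 at h2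
        simp only at h2
        split_ifs at h2 <;> omega
      · intro h
        unfold f2 at h
        split_ifs at h with h1 h2 h3
        · have := congrArg Prod.fst h; simp only at this; omega
        · have := congrArg Prod.fst h; simp only at this; omega
        · have := congrArg Prod.snd h; simp only at this; omega
        · have := congrArg Prod.snd h; simp only at this; omega)
    (by
      rintro c d (rfl | rfl)
      · left; rw [f1_f1]
      · right; rw [f2_f2 k hK])
  refine ⟨P, hP, ?_⟩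
  exact (Cong.anc ⟨f, hf, rfl⟩).trans (block_shape k hk _ (P.2.image hf) hfree)

end Pool.Agent.Q157.PT
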