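import Pool.Agent.Q157.PT.Path

namespace Pool.Agent.Q157.PT

theorem adj_cases {c d : Cell} (h : Adj c d) :
    (d.1 - c.1 = 0 ∧ (d.2 - c.2 = 1 ∨ d.2 - c.2 = -1)) ∨
    (d.2 - c.2 = 0 ∧ (d.1 - c.1 = 1 ∨ d.1 - c.1 = -1)) := by
  unfold Adj at h; omega

/-- an induced path in the board without a shape `U k` is monotone -/
theorem no_opposite (c : ℕ → Cell) (n : ℕ) (hadj : ∀ i < n, Adj (c i) (c (i + 1)))
    (hind : ∀ i j, i + 1 < j → j ≤ n → ¬ Adj (c i) (c j))
    (hinj : ∀ i j, i < j → j ≤ n → c i ≠ c j)
    (hU : ∀ k, 3 ≤ k → ¬ Anc (U k) ((Finset.range (n + 1)).image c)) :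
    ∀ m i j, j - i = m → i < j → j < n →
      ¬ ((c (j + 1)).1 - (c j).1 = -((c (i + 1)).1 - (c i).1) ∧
         (c (j + 1)).2 - (c j).2 = -((c (i + 1)).2 - (c i).2)) := by
  intro m
  induction m using Nat.strong_induction_on with
  | _ m ih =>
    intro i j hm hij hj hopp
    obtain ⟨ho1, ho2⟩ := hopp
    have hi := adj_cases (hadj i (by omega))
    have hjj := adj_cases (hadj j hj)
    -- the steps strictly between are perpendicular
    have hperp : ∀ l, i < l → l < j →
        ¬ ((c (l + 1)).1 - (c l).1 = (c (i + 1)).1 - (c i).1 ∧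
           (c (l + 1)).2 - (c l).2 = (c (i + 1)).2 - (c i).2) ∧
        ¬ ((c (l + 1)).1 - (c l).1 = -((c (i + 1)).1 - (c i).1) ∧
           (c (l + 1)).2 - (c l).2 = -((c (i + 1)).2 - (c i).2)) := by
      intro l h1 h2
      constructor
      · rintro ⟨e1, e2⟩
        exact ih (j - l) (by omega) l j rfl h2 hj ⟨by omega, by omega⟩
      · exact ih (l - i) (by omega) i l rfl h1 (by omega)
    have hsame : ∀ l, i < l → l < j → ∀ l', l < l' → l' < j →
        (c (l' + 1)).1 - (c l').1 = (c (l + 1)).1 - (c l).1 ∧
        (c (l' + 1)).2 - (c l').2 = (c (l + 1)).2 - (c l).2 := by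
      intro l h1 h2 l' h3 h4
      have p1 := hperp l h1 h2
      have p2 := hperp l' (by omega) h4
      have p3 := ih (l' - l) (by omega) l l' rfl h3 (by omega)
      have q1 := adj_cases (hadj l (by omega))
      have q2 := adj_cases (hadj l' (by omega))
      omega
    rcases Nat.lt_or_ge (i + 1) j with h1 | h1
    · -- there are steps between
      set B1 := (c (i + 1 + 1)).1 - (c (i + 1)).1 with hB1
      set B2 := (c (i + 1 + 1)).2 - (c (i + 1)).2 with hB2
      have hpos : ∀ k : ℕ, i + 1 + k ≤ j →
          (c (i + 1 + k)).1 = (c (i + 1)).1 + k * B1 ∧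
          (c (i + 1 + k)).2 = (c (i + 1)).2 + k * B2 := by
        intro k
        induction k with
        | zero => intro _; simp
        | succ k ihk =>
            intro hk
            obtain ⟨e1, e2⟩ := ihk (by omega)
            have hs : (c (i + 1 + k + 1)).1 - (c (i + 1 + k)).1 = B1 ∧
                (c (i + 1 + k + 1)).2 - (c (i + 1 + k)).2 = B2 := by
              rcases Nat.eq_zero_or_pos k with h0 | h0
              · subst h0; exact ⟨rfl, rfl⟩
              · exact hsame (i + 1) (by omega) (by omega) (i + 1 + k) (by omega) (by omega)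
            rw [show i + 1 + (k + 1) = i + 1 + k + 1 by omega]
            push_cast
            constructor
            · have := hs.1; linear_combination this + e1
            · have := hs.2; linear_combination this + e2
      have hjpos := hpos (j - (i + 1)) (by omega)
      rw [show i + 1 + (j - (i + 1)) = j by omega] at hjpos
      obtain ⟨hj1, hj2⟩ := hjpos
      set r := j - (i + 1) with hr
      have p1 := hperp (i + 1) (by omega) (by omega)
      have q1 := adj_cases (hadj (i + 1) (by omega))
      rw [← hB1, ← hB2] at p1 q1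
      have hjl1 : (c (j + 1)).1 = (c i).1 + r * B1 := by linear_combination ho1 + hj1
      have hjl2 : (c (j + 1)).2 = (c i).2 + r * B2 := by linear_combination ho2 + hj2
      rcases Nat.lt_or_ge 1 r with h2 | h2
      · -- the shape U
        apply hU (r + 1) (by omega)
        refine ⟨fun p => ((c i).1 + p.2 * ((c (i + 1)).1 - (c i).1) + p.1 * B1,
          (c i).2 + p.2 * ((c (i + 1)).2 - (c i).2) + p.1 * B2), ?_, ?_⟩
        · rcases hi with ⟨a1, a2⟩ | ⟨a1, a2⟩
          · have b1 : B2 = 0 := by omega
            have b2 : B1 = 1 ∨ B1 = -1 := by omega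
            refine ⟨B1, (c (i + 1)).2 - (c i).2, (c i).1, (c i).2, b2, a2, Or.inl fun p => ?_⟩
            rw [a1, b1]
            ext <;> simp <;> ring
          · have b1 : B1 = 0 := by omega
            have b2 : B2 = 1 ∨ B2 = -1 := by omega
            refine ⟨(c (i + 1)).1 - (c i).1, B2, (c i).1, (c i).2, a2, b2, Or.inr fun p => ?_⟩
            rw [a1, b1]
            ext <;> simp <;> ring
        · intro x hx
          rw [Finset.mem_image] at hx
          obtain ⟨p, hp, rfl⟩ := hx
          unfold U at hp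
          rw [Finset.mem_union, Finset.mem_image, Finset.mem_insert, Finset.mem_singleton] at hp
          rw [Finset.mem_image]
          rcases hp with ⟨k, hk, rfl⟩ | rfl | rfl
          · rw [Finset.mem_range] at hk
            refine ⟨i + 1 + k, Finset.mem_range.2 (by omega), ?_⟩
            obtain ⟨e1, e2⟩ := hpos k (by omega)
            refine Prod.ext ?_ ?_
            · rw [e1]; ring
            · rw [e2]; ring
          · refine ⟨i, Finset.mem_range.2 (by omega), Prod.ext (by simp) (by simp)⟩
          · refine ⟨j + 1, Finset.mem_range.2 (by omega), Prod.ext ?_ ?_⟩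
            · rw [hjl1]; push_cast; ring
            · rw [hjl2]; push_cast; ring
      · -- r = 1
        have hr1 : r = 1 := by omega
        rw [hr1] at hjl1 hjl2
        apply hind i (j + 1) (by omega) (by omega)
        unfold Adj
        push_cast at hjl1 hjl2
        omega
    · -- j = i + 1
      have hji : j = i + 1 := by omega
      subst hji
      exact hinj i (i + 1 + 1) (by omega) (by omega) (Prod.ext (by omega) (by omega))

theorem monotone_path (c : ℕ → Cell) (N : ℕ)
    (hadj : ∀ i < 2 * N, Adj (c i) (c (i + 1)))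
    (hind : ∀ i j, i + 1 < j → j ≤ 2 * N → ¬ Adj (c i) (c j))
    (hinj : ∀ i j, i < j → j ≤ 2 * N → c i ≠ c j)
    (hU : ∀ k, 3 ≤ k → ¬ Anc (U k) ((Finset.range (2 * N + 1)).image c)) :
    ∃ x : ℤ → Bool, Anc (pathset x N) ((Finset.range (2 * N + 1)).image c) := by
  have hno := no_opposite c (2 * N) hadj hind hinj hU
  have hno' : ∀ i j, i < 2 * N → j < 2 * N →
      ¬ ((c (j + 1)).1 - (c j).1 = -((c (i + 1)).1 - (c i).1) ∧
         (c (j + 1)).2 - (c j).2 = -((c (i + 1)).2 - (c i).2)) := by
    intro i j hi hj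
    rcases lt_trichotomy i j with h | h | h
    · exact hno _ i j rfl h hj
    · subst h
      have := adj_cases (hadj i hi)
      omega
    · have := hno _ j i rfl h hi
      omega
  obtain ⟨s, hs, hs'⟩ : ∃ s : ℤ, (s = 1 ∨ s = -1) ∧ ∀ i < 2 * N,
      (c (i + 1)).1 - (c i).1 = 0 ∨ (c (i + 1)).1 - (c i).1 = s := by
    by_cases h : ∃ i < 2 * N, (c (i + 1)).1 - (c i).1 ≠ 0
    · obtain ⟨i, hi, hne⟩ := h
      refine ⟨(c (i + 1)).1 - (c i).1, by have := adj_cases (hadj i hi); omega, ?_⟩
      intro j hj
      have h1 := adj_cases (hadj i hi)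
      have h2 := adj_cases (hadj j hj)
      have h3 := hno' i j hi hj
      omega
    · push Not at h
      exact ⟨1, Or.inl rfl, fun i hi => Or.inl (h i hi)⟩
  obtain ⟨t, ht, ht'⟩ : ∃ t : ℤ, (t = 1 ∨ t = -1) ∧ ∀ i < 2 * N,
      (c (i + 1)).2 - (c i).2 = 0 ∨ (c (i + 1)).2 - (c i).2 = t := by
    by_cases h : ∃ i < 2 * N, (c (i + 1)).2 - (c i).2 ≠ 0
    · obtain ⟨i, hi, hne⟩ := h
      refine ⟨(c (i + 1)).2 - (c i).2, by have := adj_cases (hadj i hi); omega, ?_⟩
      intro j hj
      have h1 := adj_cases (hadj i hi)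
      have h2 := adj_cases (hadj j hj)
      have h3 := hno' i j hi hj
      omega
    · push Not at h
      exact ⟨1, Or.inl rfl, fun i hi => Or.inl (h i hi)⟩
  set x : ℤ → Bool := fun z => decide ((c ((z + N).toNat + 1)).1 - (c (z + N).toNat).1 ≠ 0)
    with hx
  refine ⟨x, ?_⟩
  set f : Cell → Cell := fun p => (s * p.1 + ((pc x (-N)).1 - s * (c 0).1),
    t * p.2 + ((pc x (-N)).2 - t * (c 0).2)) with hf
  have hfs : IsSym f := ⟨s, t, _, _, hs, ht, Or.inl fun p => rfl⟩
  have hfc : ∀ i : ℕ, i ≤ 2 * N → f (c i) = pc x (i - N) := by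
    intro i
    induction i with
    | zero =>
        intro _
        rw [hf]
        push_cast
        rw [zero_sub]
        ext <;> simp
    | succ i ih =>
        intro hi
        have h1 := ih (by omega)
        have h2 := adj_cases (hadj i (by omega))
        have h3 := hs' i (by omega)
        have h4 := ht' i (by omega)
        have h5 := a_succ x ((i : ℤ) - N)
        have hi1 := congrArg Prod.fst h1
        have hi2 := congrArg Prod.snd h1
        rw [hf] at hi1 hi2 ⊢
        unfold pc at hi1 hi2 ⊢
        simp only at hi1 hi2 ⊢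
        have hidx : ((i : ℤ) - N + N).toNat = i := by simp
        have hv : v x ((i : ℤ) - N) = s * ((c (i + 1)).1 - (c i).1) ∧
            1 - v x ((i : ℤ) - N) = t * ((c (i + 1)).2 - (c i).2) := by
          unfold v
          rw [hx]
          simp only [hidx]
          by_cases hd : (c (i + 1)).1 - (c i).1 = 0
          · have he : (c (i + 1)).2 - (c i).2 = t := by
              rcases ht with rfl | rfl <;> omega
            rw [hd, he]
            rcases ht with rfl | rfl <;> simp
          · have he : (c (i + 1)).2 - (c i).2 = 0 := by omega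
            have hd' : (c (i + 1)).1 - (c i).1 = s := by omega
            rw [he, hd']
            rcases hs with rfl | rfl <;> simp
        have hcast : (((i + 1 : ℕ) : ℤ) - N) = (i : ℤ) - N + 1 := by push_cast; ring
        rw [hcast, h5]
        refine Prod.ext ?_ ?_
        · simp only
          linear_combination hi1 - hv.1
        · simp only
          linear_combination hi2 - hv.2
  apply Anc.of_image hfs
  intro p hp
  unfold pathset at hp
  rw [Finset.mem_image] at hp
  obtain ⟨m, hm, rfl⟩ := hp
  rw [Finset.mem_Icc] at hm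
  rw [Finset.mem_image]
  refine ⟨c (m + N).toNat, Finset.mem_image_of_mem _ (Finset.mem_range.2 (by omega)), ?_⟩
  rw [hfc _ (by omega)]
  congr 1
  omega

/-- the adjacency graph of a finite set of cells -/
def gr (P : Finset Cell) : SimpleGraph Cell where
  Adj c d := c ∈ P ∧ d ∈ P ∧ Adj c d
  symm := ⟨by
    rintro c d ⟨h1, h2, h3⟩
    refine ⟨h2, h1, ?_⟩
    unfold Adj at *
    omega⟩
  loopless := ⟨by
    rintro c ⟨-, -, h⟩
    unfold Adj at h
    omega⟩

theorem geodesic (P : Finset Cell) (hP : IsPoly P) (u w : Cell) (hu : u ∈ P) (hw : w ∈ P) :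
    ∃ (c : ℕ → Cell) (L : ℕ), c 0 = u ∧ c L = w ∧ (∀ i ≤ L, c i ∈ P) ∧
      (∀ i < L, Adj (c i) (c (i + 1))) ∧
      (∀ i j, i + 1 < j → j ≤ L → ¬ Adj (c i) (c j)) ∧
      (∀ i j, i < j → j ≤ L → c i ≠ c j) := by
  have hreach : (gr P).Reachable u w := by
    have := hP.2 u hu w hw
    induction this with
    | refl => exact SimpleGraph.Reachable.refl _
    | tail _ h ih => exact (ih h.1).trans (SimpleGraph.Adj.reachable h)
  obtain ⟨p, hp⟩ := hreach.exists_walk_length_eq_dist
  have hmem : ∀ i ≤ p.length, p.getVert i ∈ P := by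
    intro i hi
    rcases Nat.lt_or_ge i p.length with h | h
    · exact (p.adj_getVert_succ h).1
    · have : i = p.length := by omega
      rw [this, SimpleGraph.Walk.getVert_length]
      exact hw
  refine ⟨p.getVert, p.length, p.getVert_zero, p.getVert_length, hmem,
    fun i hi => (p.adj_getVert_succ hi).2.2, ?_, ?_⟩
  · intro i j hij hj h
    have hadj : (gr P).Adj (p.getVert i) (p.getVert j) := ⟨hmem i (by omega), hmem j hj, h⟩
    have := SimpleGraph.dist_le ((p.take i).append (SimpleGraph.Walk.cons hadj (p.drop j)))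
    rw [SimpleGraph.Walk.length_append, SimpleGraph.Walk.length_cons,
      SimpleGraph.Walk.take_length, SimpleGraph.Walk.drop_length, ← hp] at this
    omega
  · intro i j hij hj h
    have := SimpleGraph.dist_le ((p.take i).append ((p.drop j).copy h.symm rfl))
    rw [SimpleGraph.Walk.length_append, SimpleGraph.Walk.length_copy,
      SimpleGraph.Walk.take_length, SimpleGraph.Walk.drop_length, ← hp] at this
    omega

theorem coord_bound (c : ℕ → Cell) (L : ℕ) (hadj : ∀ i < L, Adj (c i) (c (i + 1))) :
    ∀ i ≤ L, |(c i).1 - (c 0).1| ≤ i ∧ |(c i).2 - (c 0).2| ≤ i := by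
  intro i
  induction i with
  | zero => intro _; simp
  | succ i ih =>
      intro hi
      have h1 := ih (by omega)
      have h2 := adj_cases (hadj i (by omega))
      rw [abs_le, abs_le] at h1 ⊢
      push_cast
      omega

/-- the box of radius `L` around the origin -/
noncomputable def box (L : ℕ) : Finset Cell := Finset.Icc (-(L : ℤ)) L ×ˢ Finset.Icc (-(L : ℤ)) L

theorem big_of_infinite {T : Set Polyomino} (hT : T.Infinite) (L : ℕ) :
    ∃ P : Poly, (⟦P⟧ : Polyomino) ∈ T ∧ L < P.1.card := by
  by_contra hcon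
  push Not at hcon
  apply hT
  -- all classes are classes of subsets of the box
  have hfin : {Q : Poly | Q.1 ⊆ box L}.Finite := by
    have h1 : ((box L).powerset : Set (Finset Cell)).Finite := Finset.finite_toSet _
    refine Set.Finite.of_finite_image (f := fun Q : Poly => Q.1) (h1.subset ?_) ?_
    · rintro _ ⟨Q, hQ, rfl⟩
      exact Finset.mem_coe.2 (Finset.mem_powerset.2 hQ)
    · exact Subtype.val_injective.injOn
  refine (hfin.image (fun Q : Poly => (⟦Q⟧ : Polyomino))).subset ?_
  intro q hq
  obtain ⟨P, rfl⟩ := Quotient.exists_rep q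
  have hcard := hcon P hq
  obtain ⟨u, hu⟩ := P.2.1
  set f : Cell → Cell := fun c => (1 * c.1 + -u.1, 1 * c.2 + -u.2) with hf
  have hfs : IsSym f := ⟨1, 1, _, _, Or.inl rfl, Or.inl rfl, Or.inl fun c => rfl⟩
  refine ⟨⟨P.1.image f, P.2.image hfs⟩, ?_, ?_⟩
  · intro x hx
    rw [Finset.mem_image] at hx
    obtain ⟨w, hw, rfl⟩ := hx
    obtain ⟨c, M, hc0, hcM, hmem, hadj, -, hinj⟩ := geodesic P.1 P.2 u w hu hw
    have hM : M + 1 ≤ P.1.card := by
      have hsub : (Finset.range (M + 1)).image c ⊆ P.1 := by
        intro y hy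
        rw [Finset.mem_image] at hy
        obtain ⟨i, hi, rfl⟩ := hy
        exact hmem i (by rw [Finset.mem_range] at hi; omega)
      have hc : ((Finset.range (M + 1)).image c).card = M + 1 := by
        rw [Finset.card_image_of_injOn, Finset.card_range]
        intro i hi j hj hij
        rw [Finset.mem_coe, Finset.mem_range] at hi hj
        rcases lt_trichotomy i j with h | h | h
        · exact absurd hij (hinj i j h (by omega))
        · exact h
        · exact absurd hij.symm (hinj j i h (by omega))
      rw [← hc]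
      exact Finset.card_le_card hsub
    have hb := coord_bound c M hadj M le_rfl
    rw [hc0, hcM, abs_le, abs_le] at hb
    unfold box
    rw [Finset.mem_product, Finset.mem_Icc, Finset.mem_Icc]
    rw [hf]
    simp only
    omega
  · exact Quotient.sound (Cong.symm ⟨f, hfs, rfl⟩)

theorem long_path (P : Finset Cell) (hP : IsPoly P) (M : ℕ) (hcard : (box M).card < P.card) :
    ∃ c : ℕ → Cell, (∀ i ≤ M, c i ∈ P) ∧ (∀ i < M, Adj (c i) (c (i + 1))) ∧
      (∀ i j, i + 1 < j → j ≤ M → ¬ Adj (c i) (c j)) ∧
      (∀ i j, i < j → j ≤ M → c i ≠ c j) := by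
  obtain ⟨u, hu⟩ := hP.1
  set f : Cell → Cell := fun c => (1 * c.1 + -u.1, 1 * c.2 + -u.2) with hf
  have hfs : IsSym f := ⟨1, 1, _, _, Or.inl rfl, Or.inl rfl, Or.inl fun c => rfl⟩
  have : ∃ w ∈ P, f w ∉ box M := by
    by_contra hcon
    push Not at hcon
    have hsub : P.image f ⊆ box M := by
      intro x hx
      rw [Finset.mem_image] at hx
      obtain ⟨w, hw, rfl⟩ := hx
      exact hcon w hw
    have := Finset.card_le_card hsub
    rw [Finset.card_image_of_injective P hfs.inj] at this
    omega
  obtain ⟨w, hw, hwb⟩ := this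
  obtain ⟨c, L, hc0, hcL, hmem, hadj, hind, hinj⟩ := geodesic P hP u w hu hw
  have hb := coord_bound c L hadj L le_rfl
  rw [hc0, hcL, abs_le, abs_le] at hb
  have hML : M ≤ L := by
    by_contra hlt
    apply hwb
    unfold box
    rw [Finset.mem_product, Finset.mem_Icc, Finset.mem_Icc]
    rw [hf]
    simp only
    omega
  exact ⟨c, fun i hi => hmem i (by omega), fun i hi => hadj i (by omega),
    fun i j h1 h2 => hind i j h1 (by omega), fun i j h1 h2 => hinj i j h1 (by omega)⟩

/-- every winning team of finite polyominoes is finite -/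
theorem winner_finite (T : Set Polyomino) (hteam : IsTeam T) (hwin : IsWinner T) : T.Finite := by
  by_contra hinf
  obtain ⟨N, hN⟩ := uniform hwin
  obtain ⟨P, hP, hcard⟩ := big_of_infinite hinf ((box (2 * N)).card + (2 * N + 1))
  obtain ⟨c, hmem, hadj, hind, hinj⟩ := long_path P.1 P.2 (2 * N) (by omega)
  set Q : Finset Cell := (Finset.range (2 * N + 1)).image c with hQ
  have hQP : Q ⊆ P.1 := by
    intro y hy
    rw [hQ, Finset.mem_image] at hy
    obtain ⟨i, hi, rfl⟩ := hy
    exact hmem i (by rw [Finset.mem_range] at hi; omega)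
  have hQc : Q.card ≤ 2 * N + 1 := by
    rw [hQ]
    exact Finset.card_image_le.trans (by rw [Finset.card_range])
  -- no member of the team is an ancestor of `Q`
  have hav : ∀ R : Poly, (⟦R⟧ : Polyomino) ∈ T → ¬ Anc R.1 Q := by
    intro R hR hRQ
    have h1 := hteam R P hR hP (hRQ.mono hQP)
    have h2 : Cong R.1 P.1 := Quotient.exact h1
    have h3 := h2.card
    have h4 := hRQ.card
    omega
  obtain ⟨x, hx⟩ := monotone_path c N hadj hind hinj (by
    intro k hk hUQ
    obtain ⟨R, hR, hRU⟩ := winner_U hwin k hk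
    exact hav R hR (hRU.trans hUQ))
  obtain ⟨R, hR, hRx⟩ := hN x
  exact hav R hR (hRx.trans hx)

end Pool.Agent.Q157.PT
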