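import Pool.Agent.Q157.PT.Forced

namespace Pool.Agent.Q157.PT

/-- `1` for a step to the right, `0` for a step upwards -/
def v (x : ℤ → Bool) (n : ℤ) : ℤ := if x n then 1 else 0

/-- first coordinate of the monotone path at index `n` -/
noncomputable def a (x : ℤ → Bool) (n : ℤ) : ℤ := (∑ i ∈ Finset.Ico 0 n, v x i) - ∑ i ∈ Finset.Ico n 0, v x i

theorem a_succ (x : ℤ → Bool) (n : ℤ) : a x (n + 1) = a x n + v x n := by
  unfold a
  rcases le_or_gt 0 n with h | h
  · have h1 : Finset.Ico (n + 1) 0 = ∅ := Finset.Ico_eq_empty (by omega)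
    have h2 : Finset.Ico n 0 = ∅ := Finset.Ico_eq_empty (by omega)
    have h3 : Finset.Ico 0 (n + 1) = insert n (Finset.Ico 0 n) := by
      ext i; simp only [Finset.mem_Ico, Finset.mem_insert]; omega
    rw [h1, h2, h3, Finset.sum_insert (by simp)]
    ring
  · have h1 : Finset.Ico 0 (n + 1) = ∅ := Finset.Ico_eq_empty (by omega)
    have h2 : Finset.Ico 0 n = ∅ := Finset.Ico_eq_empty (by omega)
    have h3 : Finset.Ico n 0 = insert n (Finset.Ico (n + 1) 0) := by
      ext i; simp only [Finset.mem_Ico, Finset.mem_insert]; omega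
    rw [h1, h2, h3, Finset.sum_insert (by simp)]
    simp

/-- the cell of the monotone path at index `n` -/
noncomputable def pc (x : ℤ → Bool) (n : ℤ) : Cell := (a x n, n - a x n)

/-- the cells of the monotone path with indices from `-N` to `N` -/
noncomputable def pathset (x : ℤ → Bool) (N : ℕ) : Finset Cell := (Finset.Icc (-(N : ℤ)) N).image (pc x)

theorem pathset_mono (x : ℤ → Bool) {N M : ℕ} (h : N ≤ M) : pathset x N ⊆ pathset x M := by
  unfold pathset
  apply Finset.image_subset_image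
  apply Finset.Icc_subset_Icc <;> omega

/-- forbidden forward neighbour -/
def g1 (x : ℤ → Bool) (c : Cell) : Cell :=
  (c.1 + (1 - v x (c.1 + c.2)), c.2 + v x (c.1 + c.2))

/-- forbidden backward neighbour -/
def g2 (x : ℤ → Bool) (c : Cell) : Cell :=
  (c.1 - (1 - v x (c.1 + c.2 - 1)), c.2 - v x (c.1 + c.2 - 1))

theorem v01 (x : ℤ → Bool) (n : ℤ) : v x n = 0 ∨ v x n = 1 := by
  unfold v; split_ifs <;> simp

theorem winner_path {T : Set Polyomino} (hT : IsWinner T) (x : ℤ → Bool) :
    ∃ P : Poly, (⟦P⟧ : Polyomino) ∈ T ∧ ∃ N : ℕ, Anc P.1 (pathset x N) := by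
  have hg12 : ∀ c, g2 x (g1 x c) = c := by
    intro c
    unfold g1 g2
    simp only
    rw [show c.1 + (1 - v x (c.1 + c.2)) + (c.2 + v x (c.1 + c.2)) - 1 = c.1 + c.2 by ring]
    ext <;> simp
  have hg21 : ∀ c, g1 x (g2 x c) = c := by
    intro c
    unfold g1 g2
    simp only
    rw [show c.1 - (1 - v x (c.1 + c.2 - 1)) + (c.2 - v x (c.1 + c.2 - 1)) = c.1 + c.2 - 1
      by ring]
    ext <;> simp
  obtain ⟨P, hP, f, hf, hfree⟩ := winner_free hT (g1 x) (g2 x)
    (by
      intro c
      constructor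
      · intro h
        have h1 := congrArg Prod.fst h
        have h2 := congrArg Prod.snd h
        unfold g1 at h1 h2
        simp only at h1 h2
        omega
      · intro h
        have h1 := congrArg Prod.fst h
        have h2 := congrArg Prod.snd h
        unfold g2 at h1 h2
        simp only at h1 h2
        omega)
    (by
      rintro c d (rfl | rfl)
      · right; rw [hg12]
      · left; rw [hg21])
  refine ⟨P, hP, ?_⟩
  have hS := P.2.image hf
  obtain ⟨⟨c0, hc0⟩, hconn⟩ := hS
  -- the offset is constant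
  have hstep : ∀ c ∈ P.1.image f, ∀ d ∈ P.1.image f, Adj c d →
      c.1 - a x (c.1 + c.2) = d.1 - a x (d.1 + d.2) := by
    have hr : ∀ c ∈ P.1.image f, ∀ d ∈ P.1.image f, d.1 = c.1 + 1 → d.2 = c.2 →
        c.1 - a x (c.1 + c.2) = d.1 - a x (d.1 + d.2) := by
      intro c hc d hd h1 h2
      have hn := hfree c hc d hd
      rw [not_or] at hn
      rcases v01 x (c.1 + c.2) with h0 | h0
      · exfalso
        apply hn.1
        unfold g1
        rw [h0]
        exact Prod.ext (by simp; omega) (by simp; omega)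
      · have := a_succ x (c.1 + c.2)
        rw [show d.1 + d.2 = c.1 + c.2 + 1 by omega, this]
        omega
    have hu : ∀ c ∈ P.1.image f, ∀ d ∈ P.1.image f, d.1 = c.1 → d.2 = c.2 + 1 →
        c.1 - a x (c.1 + c.2) = d.1 - a x (d.1 + d.2) := by
      intro c hc d hd h1 h2
      have hn := hfree c hc d hd
      rw [not_or] at hn
      rcases v01 x (c.1 + c.2) with h0 | h0
      · have := a_succ x (c.1 + c.2)
        rw [show d.1 + d.2 = c.1 + c.2 + 1 by omega, this]
        omega
      · exfalso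
        apply hn.1
        unfold g1
        rw [h0]
        exact Prod.ext (by simp; omega) (by simp; omega)
    intro c hc d hd h
    rcases h with ⟨h1, h2 | h2⟩ | ⟨h1, h2 | h2⟩
    · exact (hu d hd c hc h1 h2).symm
    · exact hu c hc d hd h1.symm h2
    · exact (hr d hd c hc h2 h1).symm
    · exact hr c hc d hd h2 h1.symm
  have hoff : ∀ c ∈ P.1.image f, c.1 - a x (c.1 + c.2) = c0.1 - a x (c0.1 + c0.2) := by
    intro c hc
    have := hconn c0 hc0 c hc
    induction this with
    | refl => rfl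
    | tail _ h ih =>
        obtain ⟨ha, hb, hab⟩ := h
        rw [← hstep _ ha _ hb hab]
        exact ih ha
  set g := c0.1 - a x (c0.1 + c0.2) with hg
  obtain ⟨N, hN⟩ : ∃ N : ℕ, ∀ c ∈ P.1.image f, |c.1 + c.2| ≤ N := by
    refine ⟨∑ c ∈ P.1.image f, (|c.1 + c.2|).toNat, fun c hc => ?_⟩
    have h1 := Finset.single_le_sum (f := fun c : Cell => (|c.1 + c.2|).toNat)
      (fun _ _ => Nat.zero_le _) hc
    have h2 : (|c.1 + c.2|) ≤ ((|c.1 + c.2|).toNat : ℤ) := Int.self_le_toNat _
    have h3 : ((|c.1 + c.2|).toNat : ℤ) ≤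
        ((∑ c ∈ P.1.image f, (|c.1 + c.2|).toNat : ℕ) : ℤ) := by exact_mod_cast h1
    omega
  refine ⟨N, ?_⟩
  refine (Cong.anc ⟨f, hf, rfl⟩).trans (Anc.of_image
    (f := fun c => (1 * c.1 + g, 1 * c.2 + -g))
    ⟨1, 1, g, -g, Or.inl rfl, Or.inl rfl, Or.inl fun c => rfl⟩ ?_)
  intro c hc
  have h1 := hoff c hc
  have h2 := hN c hc
  rw [abs_le] at h2
  rw [Finset.mem_image]
  refine ⟨pc x (c.1 + c.2), ?_, ?_⟩
  · unfold pathset
    exact Finset.mem_image_of_mem _ (Finset.mem_Icc.2 h2)
  · unfold pc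
    exact Prod.ext (by simp only; omega) (by simp only; omega)

theorem pathset_congr (x y : ℤ → Bool) (N : ℕ)
    (h : ∀ i ∈ Finset.Ico (-(N : ℤ)) N, x i = y i) : pathset x N = pathset y N := by
  unfold pathset
  apply Finset.image_congr
  intro n hn
  rw [Finset.mem_coe, Finset.mem_Icc] at hn
  have : a x n = a y n := by
    unfold a
    congr 1
    · apply Finset.sum_congr rfl
      intro i hi
      rw [Finset.mem_Ico] at hi
      unfold v
      rw [h i (Finset.mem_Ico.2 ⟨by omega, by omega⟩)]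
    · apply Finset.sum_congr rfl
      intro i hi
      rw [Finset.mem_Ico] at hi
      unfold v
      rw [h i (Finset.mem_Ico.2 ⟨by omega, by omega⟩)]
  unfold pc
  rw [this]

theorem uniform {T : Set Polyomino} (hT : IsWinner T) :
    ∃ N : ℕ, ∀ x : ℤ → Bool, ∃ P : Poly, (⟦P⟧ : Polyomino) ∈ T ∧ Anc P.1 (pathset x N) := by
  have hmono : Monotone (fun N : ℕ => {x : ℤ → Bool | ∃ P : Poly, (⟦P⟧ : Polyomino) ∈ T ∧
      Anc P.1 (pathset x N)}) := by
    intro N M h x hx
    obtain ⟨P, hP, hx⟩ := hx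
    exact ⟨P, hP, hx.mono (pathset_mono x h)⟩
  obtain ⟨N, hN⟩ := isCompact_univ.elim_directed_cover
    (fun N : ℕ => {x : ℤ → Bool | ∃ P : Poly, (⟦P⟧ : Polyomino) ∈ T ∧
      Anc P.1 (pathset x N)})
    (by
      intro N
      rw [isOpen_iff_mem_nhds]
      rintro x ⟨P, hP, hx⟩
      have hnb : Set.pi (↑(Finset.Ico (-(N : ℤ)) N) : Set ℤ) (fun i => {x i}) ∈ nhds x := by
        apply set_pi_mem_nhds (Finset.finite_toSet _)
        intro i _
        exact (isOpen_discrete ({x i} : Set Bool)).mem_nhds rfl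
      refine Filter.mem_of_superset hnb ?_
      intro y hy
      refine ⟨P, hP, ?_⟩
      rw [pathset_congr y x N (fun i hi => hy i (Finset.mem_coe.2 hi))]
      exact hx)
    (by
      intro x _
      obtain ⟨P, hP, N, hN⟩ := winner_path hT x
      rw [Set.mem_iUnion]
      exact ⟨N, P, hP, hN⟩)
    (hmono.directed_le)
  exact ⟨N, fun x => hN (Set.mem_univ x)⟩

end Pool.Agent.Q157.PT
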